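import Mathlib

/-!
# Homogeneous cyclotomic values

If a prime divides `x ^ n - y ^ n` but not `y` and not `n`, it divides the value at `(x, y)` of the
homogeneous cyclotomic polynomial of some divisor `d` of `n`, whose size is at most
`(|x| + |y|) ^ φ(d)`.
-/

set_option autoImplicit false

namespace Pool.Agent.H584.Smooth

open Polynomial

/-- the value of the homogeneous cyclotomic polynomial -/
noncomputable def hc {R : Type*} [CommRing R] (d : ℕ) (x y : R) : R :=
  ((cyclotomic d R).scaleRoots y).eval x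

theorem hc_map {R S : Type*} [CommRing R] [Nontrivial R] [CommRing S] [Nontrivial S]
    (f : R →+* S) (d : ℕ) (x y : R) : f (hc d x y) = hc d (f x) (f y) := by
  unfold hc
  rw [← eval_map_apply, map_scaleRoots, map_cyclotomic]
  rw [(cyclotomic.monic d R).leadingCoeff, map_one]
  exact one_ne_zero

theorem hc_mul {F : Type*} [Field F] (d : ℕ) (t y : F) :
    hc d (y * t) y = y ^ d.totient * (cyclotomic d F).eval t := by
  unfold hc
  have h := scaleRoots_eval₂_mul (p := cyclotomic d F) (RingHom.id F) t y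
  rw [natDegree_cyclotomic] at h
  simpa [eval₂_id] using h

theorem hc_div {F : Type*} [Field F] (d : ℕ) {x y : F} (hy : y ≠ 0) :
    hc d x y = y ^ d.totient * (cyclotomic d F).eval (x / y) := by
  rw [← hc_mul, mul_div_cancel₀ _ hy]

theorem exists_dvd {R : Type*} [CommRing R] [IsDomain R] {q x y : R} (hq : Prime q) {n : ℕ}
    (hn : 0 < n) (hy : ¬ q ∣ y) (h : q ∣ x ^ n - y ^ n) (hqn : ¬ q ∣ (n : R)) :
    ∃ d : ℕ, d ∣ n ∧ 0 < d ∧ q ∣ hc d x y := by
  have hprime : (Ideal.span {q}).IsPrime := (Ideal.span_singleton_prime hq.ne_zero).2 hq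
  set A := R ⧸ Ideal.span {q} with hA
  have : IsDomain A := Ideal.Quotient.isDomain _
  set F := FractionRing A with hF
  set f : R →+* F := (algebraMap A F).comp (Ideal.Quotient.mk (Ideal.span {q})) with hf
  have hker : ∀ r : R, f r = 0 ↔ q ∣ r := by
    intro r
    rw [hf, RingHom.comp_apply, IsFractionRing.to_map_eq_zero_iff, Ideal.Quotient.eq_zero_iff_mem,
      Ideal.mem_span_singleton]
  have hfy : f y ≠ 0 := fun h0 => hy ((hker y).1 h0)
  have hxy : f x ^ n = f y ^ n := by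
    have := (hker _).2 h
    rw [map_sub, map_pow, map_pow, sub_eq_zero] at this
    exact this
  set t : F := f x / f y with ht
  have htn : t ^ n = 1 := by
    rw [ht, div_pow, hxy, div_self (pow_ne_zero _ hfy)]
  have hd : orderOf t ∣ n := orderOf_dvd_of_pow_eq_one htn
  have hd0 : 0 < orderOf t := Nat.pos_of_dvd_of_pos hd hn
  have hnF : ((orderOf t : ℕ) : F) ≠ 0 := by
    intro h0
    obtain ⟨m, hm⟩ := hd
    apply hqn
    rw [← hker, map_natCast, hm, Nat.cast_mul, h0, zero_mul]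
  have : NeZero ((orderOf t : ℕ) : F) := ⟨hnF⟩
  have hroot : IsRoot (cyclotomic (orderOf t) F) t := isRoot_cyclotomic_iff.2 (IsPrimitiveRoot.orderOf t)
  refine ⟨orderOf t, hd, hd0, ?_⟩
  rw [← hker, hc_map, hc_div _ hfy, hroot.eq_zero, mul_zero]

theorem hc_ne_zero {F : Type*} [Field F] {x y : F} (hy : y ≠ 0) {n d : ℕ} (hd : d ∣ n)
    (h : x ^ n ≠ y ^ n) : hc d x y ≠ 0 := by
  rw [hc_div _ hy]
  refine mul_ne_zero (pow_ne_zero _ hy) fun h0 => h ?_
  obtain ⟨g, hg⟩ := cyclotomic.dvd_X_pow_sub_one d F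
  have h1 : (x / y) ^ d = 1 := by
    have := congrArg (eval (x / y)) hg
    rw [eval_mul, h0, zero_mul] at this
    simpa [sub_eq_zero] using this
  obtain ⟨m, rfl⟩ := hd
  rw [div_pow, div_eq_one_iff_eq (pow_ne_zero _ hy)] at h1
  rw [pow_mul, pow_mul, h1]

theorem norm_hc_le (d : ℕ) {x y : ℂ} (hy : y ≠ 0) : ‖hc d x y‖ ≤ (‖x‖ + ‖y‖) ^ d.totient := by
  rcases Nat.eq_zero_or_pos d with h | h
  · subst h
    rw [hc_div _ hy]
    simp
  · have hprim : IsPrimitiveRoot (Complex.exp (2 * Real.pi * Complex.I / d)) d :=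
      Complex.isPrimitiveRoot_exp d h.ne'
    rw [hc_div _ hy, cyclotomic_eq_prod_X_sub_primitiveRoots hprim, eval_prod, norm_mul, norm_pow,
      norm_prod, ← hprim.card_primitiveRoots, ← Finset.prod_const, ← Finset.prod_const,
      ← Finset.prod_mul_distrib]
    refine Finset.prod_le_prod (fun μ _ => by positivity) fun μ hμ => ?_
    have hμ1 : ‖μ‖ = 1 := by
      have hμ2 := (mem_primitiveRoots h).1 hμ
      exact Complex.norm_eq_one_of_pow_eq_one hμ2.pow_eq_one h.ne'
    rw [eval_sub, eval_X, eval_C, ← norm_mul, mul_sub, mul_div_cancel₀ _ hy]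
    calc ‖x - y * μ‖ ≤ ‖x‖ + ‖y * μ‖ := norm_sub_le _ _
      _ = ‖x‖ + ‖y‖ := by rw [norm_mul, hμ1, mul_one]

/-- Euler's function takes values which are small with respect to the argument. -/
theorem exists_totient_le {η : ℝ} (hη : 0 < η) :
    ∃ M : ℕ, 0 < M ∧ ∀ n : ℕ, M ∣ n → (n.totient : ℝ) ≤ η * n := by
  classical
  have hns := Nat.Primes.not_summable_one_div
  obtain ⟨s, hs⟩ : ∃ s : Finset Nat.Primes, -Real.log η ≤ ∑ p ∈ s, (1 / (p : ℕ) : ℝ) := by
    by_contra hcon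
    push Not at hcon
    exact hns (summable_of_sum_le (fun p => by positivity) fun u => (hcon u).le)
  refine ⟨∏ p ∈ s, (p : ℕ), Finset.prod_pos fun p _ => p.2.pos, fun n hn => ?_⟩
  rcases Nat.eq_zero_or_pos n with h0 | h0
  · subst h0
    simp
  have h1 : (n.totient : ℝ) = n * ∏ p ∈ n.primeFactors, (1 - (p : ℝ)⁻¹) := by
    have := Nat.totient_eq_mul_prod_factors n
    have h2 : ((n.totient : ℚ) : ℝ) = ((n * ∏ p ∈ n.primeFactors, (1 - (p : ℚ)⁻¹) : ℚ) : ℝ) := by
      rw [this]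
    push_cast at h2
    exact h2
  have h3 : ∏ p ∈ n.primeFactors, (1 - (p : ℝ)⁻¹) ≤ ∏ p ∈ s.image (fun p : Nat.Primes => (p : ℕ)),
      (1 - (p : ℝ)⁻¹) := by
    have hpr : ∀ p ∈ n.primeFactors, 0 ≤ 1 - (p : ℝ)⁻¹ := by
      intro p hp
      have : (1 : ℝ) < p := by exact_mod_cast (Nat.prime_of_mem_primeFactors hp).one_lt
      rw [sub_nonneg]
      exact inv_le_one_of_one_le₀ this.le
    refine Finset.prod_le_prod_of_subset_of_le_one ?_ hpr ?_
    · intro p hp
      rw [Finset.mem_image] at hp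
      obtain ⟨q, hq, rfl⟩ := hp
      exact Nat.mem_primeFactors.2 ⟨q.2, (Finset.dvd_prod_of_mem _ hq).trans hn, h0.ne'⟩
    · intro p _ _
      have : (0 : ℝ) ≤ (p : ℝ)⁻¹ := by positivity
      linarith
  have h4 : ∏ p ∈ s.image (fun p : Nat.Primes => (p : ℕ)), (1 - (p : ℝ)⁻¹) ≤
      Real.exp (-∑ p ∈ s, (1 / (p : ℕ) : ℝ)) := by
    have himg : ∏ p ∈ s.image (fun p : Nat.Primes => (p : ℕ)), (1 - (p : ℝ)⁻¹) =
        ∏ p ∈ s, (1 - ((p : ℕ) : ℝ)⁻¹) :=
      Finset.prod_image (fun p _ q _ h => Nat.Primes.coe_nat_injective h)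
    rw [himg, ← Finset.sum_neg_distrib, Real.exp_sum]
    refine Finset.prod_le_prod (fun p _ => ?_) fun p _ => ?_
    · have : (1 : ℝ) < (p : ℕ) := by exact_mod_cast p.2.one_lt
      rw [sub_nonneg]
      exact inv_le_one_of_one_le₀ this.le
    · have := Real.add_one_le_exp (-(1 / (p : ℕ) : ℝ))
      rw [one_div] at this ⊢
      linarith
  have h5 : Real.exp (-∑ p ∈ s, (1 / (p : ℕ) : ℝ)) ≤ η := by
    rw [← Real.le_log_iff_exp_le hη]
    linarith
  rw [h1, mul_comm η]
  gcongr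
  exact (h3.trans h4).trans h5

end Pool.Agent.H584.Smooth
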